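import Pool.Agent.H484.AL.Stm

namespace Pool.Agent.H484.AL

open Finset
open scoped Classical

/-- a product of cardinalities of two filters as a double sum of indicators -/
theorem t_CONF_prod {β : Type*} (A A' : Finset β) (p p' : β → Prop) :
    ((A.filter p).card : ℝ) * ((A'.filter p').card : ℝ)
      = ∑ l ∈ A, ∑ l' ∈ A', (if p l ∧ p' l' then (1 : ℝ) else 0) := by
  rw [Finset.card_filter, Finset.card_filter]
  push_cast
  rw [Finset.sum_mul_sum]
  refine Finset.sum_congr rfl fun l _ => Finset.sum_congr rfl fun l' _ => ?_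
  by_cases h : p l <;> by_cases h' : p' l' <;> simp [h, h']

/-- exchange of sums: the sum over `b` of the product of two counts -/
theorem t_CONF_exch {β γ : Type*} [Fintype γ] (A A' : Finset β) (p p' : γ → β → Prop) :
    ∑ b : γ, (((A.filter (p b)).card : ℝ) * ((A'.filter (p' b)).card : ℝ))
      = ∑ l ∈ A, ∑ l' ∈ A', ((univ.filter (fun b : γ => p b l ∧ p' b l')).card : ℝ) := by
  calc ∑ b : γ, (((A.filter (p b)).card : ℝ) * ((A'.filter (p' b)).card : ℝ))
      = ∑ b : γ, ∑ l ∈ A, ∑ l' ∈ A', (if p b l ∧ p' b l' then (1 : ℝ) else 0) :=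
        Finset.sum_congr rfl fun b _ => t_CONF_prod A A' (p b) (p' b)
    _ = ∑ l ∈ A, ∑ b : γ, ∑ l' ∈ A', (if p b l ∧ p' b l' then (1 : ℝ) else 0) :=
        Finset.sum_comm
    _ = ∑ l ∈ A, ∑ l' ∈ A', ∑ b : γ, (if p b l ∧ p' b l' then (1 : ℝ) else 0) :=
        Finset.sum_congr rfl fun l _ => Finset.sum_comm
    _ = ∑ l ∈ A, ∑ l' ∈ A', ((univ.filter (fun b : γ => p b l ∧ p' b l')).card : ℝ) := by
        refine Finset.sum_congr rfl fun l _ => Finset.sum_congr rfl fun l' _ => ?_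
        rw [Finset.card_filter]
        push_cast
        rfl

/-- a double sum is at most the number of pairs times a bound of the summands -/
theorem t_CONF_le {β : Type*} (A A' : Finset β) (f : β → β → ℝ) (K : ℝ)
    (h : ∀ l ∈ A, ∀ l' ∈ A', f l l' ≤ K) :
    ∑ l ∈ A, ∑ l' ∈ A', f l l' ≤ (A.card : ℝ) * ((A'.card : ℝ) * K) := by
  have h1 : ∀ l ∈ A, ∑ l' ∈ A', f l l' ≤ (A'.card : ℝ) * K := by
    intro l hl
    have := Finset.sum_le_card_nsmul A' (fun l' => f l l') K (fun l' hl' => h l hl l' hl')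
    rwa [nsmul_eq_mul] at this
  have := Finset.sum_le_card_nsmul A (fun l => ∑ l' ∈ A', f l l') ((A'.card : ℝ) * K) h1
  rwa [nsmul_eq_mul] at this

theorem t_CONF (hNP : S_NP) (hCROSS : S_CROSS) (hLK : S_LK) : S_CONF := by
  intro e B g M a0 J α hR t t' j j' ht ht' hj hj' hne hconf
  have hB1 : (1 : ℝ) ≤ (B : ℝ) ^ J := by
    have h64 : (64 : ℝ) ≤ (B : ℝ) := by exact_mod_cast hR.hB
    exact one_le_pow₀ (by linarith)
  set L := Lset e g B α j with hL
  set L' := Lset e g B α j' with hL'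
  set κ := kap e (g * M) B t j with hκ
  set κ' := kap e (g * M) B t' j' with hκ'
  -- the bound for one pair
  have hpair : ∀ l ∈ L, ∀ l' ∈ L',
      ((univ.filter (fun b : Fin e → Fin M => EvC e g M a0 B α (fun i => (b i : ℕ)) t j l ∧
        EvC e g M a0 B α (fun i => (b i : ℕ)) t' j' l')).card : ℝ)
        ≤ 4 * ((κ : ℝ) * (κ' : ℝ)) * (M : ℝ) ^ (e - 2) := by
    intro l hl l' hl'
    by_cases hP : Par e l l'
    · have h0 : (univ.filter (fun b : Fin e → Fin M =>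
          EvC e g M a0 B α (fun i => (b i : ℕ)) t j l ∧
          EvC e g M a0 B α (fun i => (b i : ℕ)) t' j' l')) = ∅ := by
        rw [Finset.filter_eq_empty_iff]
        rintro b _ ⟨h1, h2⟩
        exact hCROSS e B g M a0 J α (fun i => (b i : ℕ)) hR t t' j j' ht ht' hj hj' hne hconf
          l hl l' hl' hP h1 h2
      rw [h0, Finset.card_empty, Nat.cast_zero]
      positivity
    · refine (hNP e B g M a0 J α hR t t' j j' ht ht' hj hj' l hl l' hl' hP).trans ?_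
      have h1 : (1 + 1 / (B : ℝ) ^ J) ^ 2 ≤ 4 := by
        have h2 : 1 / (B : ℝ) ^ J ≤ 1 := by
          rw [div_le_one (by linarith)]
          exact hB1
        have h3 : 0 ≤ 1 / (B : ℝ) ^ J := by positivity
        nlinarith
      have h4 : 0 ≤ (κ : ℝ) * (κ' : ℝ) := by positivity
      have h5 : (0 : ℝ) ≤ (M : ℝ) ^ (e - 2) := by positivity
      exact mul_le_mul_of_nonneg_right (mul_le_mul_of_nonneg_right h1 h4) h5
  have hsum : ∑ b : Fin e → Fin M,
      ((NN e g M a0 B α (fun i => (b i : ℕ)) t j : ℝ) *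
       (NN e g M a0 B α (fun i => (b i : ℕ)) t' j' : ℝ))
      ≤ (L.card : ℝ) * ((L'.card : ℝ) * (4 * ((κ : ℝ) * (κ' : ℝ)) * (M : ℝ) ^ (e - 2))) := by
    have hex := t_CONF_exch (γ := Fin e → Fin M) L L'
      (fun b l => EvC e g M a0 B α (fun i => (b i : ℕ)) t j l)
      (fun b l => EvC e g M a0 B α (fun i => (b i : ℕ)) t' j' l)
    have hNN : ∑ b : Fin e → Fin M,
        ((NN e g M a0 B α (fun i => (b i : ℕ)) t j : ℝ) *
         (NN e g M a0 B α (fun i => (b i : ℕ)) t' j' : ℝ))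
        = ∑ b : Fin e → Fin M,
        (((L.filter (fun l => EvC e g M a0 B α (fun i => (b i : ℕ)) t j l)).card : ℝ) *
          ((L'.filter (fun l => EvC e g M a0 B α (fun i => (b i : ℕ)) t' j' l)).card : ℝ)) :=
      rfl
    rw [hNN, hex]
    exact t_CONF_le L L' _ _ hpair
  have hK1 : (B : ℝ) ^ t * ((L.card : ℝ) * (κ : ℝ)) ≤ 2 ^ e * (M : ℝ) := by
    have := (hLK e B g M a0 J α hR t j ht hj).1
    exact_mod_cast this
  have hK2 : (B : ℝ) ^ t' * ((L'.card : ℝ) * (κ' : ℝ)) ≤ 2 ^ e * (M : ℝ) := by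
    have := (hLK e B g M a0 J α hR t' j' ht' hj').1
    exact_mod_cast this
  have hprod : ((B : ℝ) ^ t * ((L.card : ℝ) * (κ : ℝ))) *
      ((B : ℝ) ^ t' * ((L'.card : ℝ) * (κ' : ℝ))) ≤ (2 ^ e * (M : ℝ)) * (2 ^ e * (M : ℝ)) :=
    mul_le_mul hK1 hK2 (by positivity) (by positivity)
  have hM : (M : ℝ) ^ e = (M : ℝ) * (M : ℝ) * (M : ℝ) ^ (e - 2) := by
    have he : e = 2 + (e - 2) := by
      have := hR.he
      omega
    conv_lhs => rw [he]
    rw [pow_add]
    ring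
  have h4e : (4 : ℝ) ^ e = 2 ^ e * 2 ^ e := by
    rw [← mul_pow]
    norm_num
  calc (B : ℝ) ^ t * (B : ℝ) ^ t' * ∑ b : Fin e → Fin M,
      ((NN e g M a0 B α (fun i => (b i : ℕ)) t j : ℝ) *
       (NN e g M a0 B α (fun i => (b i : ℕ)) t' j' : ℝ))
      ≤ (B : ℝ) ^ t * (B : ℝ) ^ t' *
        ((L.card : ℝ) * ((L'.card : ℝ) * (4 * ((κ : ℝ) * (κ' : ℝ)) * (M : ℝ) ^ (e - 2)))) :=
        mul_le_mul_of_nonneg_left hsum (by positivity)
    _ = 4 * (((B : ℝ) ^ t * ((L.card : ℝ) * (κ : ℝ))) *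
      ((B : ℝ) ^ t' * ((L'.card : ℝ) * (κ' : ℝ)))) * (M : ℝ) ^ (e - 2) := by ring
    _ ≤ 4 * ((2 ^ e * (M : ℝ)) * (2 ^ e * (M : ℝ))) * (M : ℝ) ^ (e - 2) := by
        have h5 : (0 : ℝ) ≤ (M : ℝ) ^ (e - 2) := by positivity
        exact mul_le_mul_of_nonneg_right
          (mul_le_mul_of_nonneg_left hprod (by norm_num)) h5
    _ = 4 * 4 ^ e * (M : ℝ) ^ e := by
        rw [hM, h4e]
        ring

end Pool.Agent.H484.AL

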