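import Pool.Agent.H484.AL.Stm

/-!
# Bounds for geometric sums
-/

set_option autoImplicit false

namespace Pool.Agent.H484.AL

open Finset

theorem t_SM_pow (N : ℕ) (ν : ℤ) (y : ℕ) : ee N (ν * (y : ℤ)) = ee N ν ^ y := by
  unfold ee
  rw [← Complex.exp_nat_mul]
  congr 1
  push_cast
  ring

theorem t_SM_ee (N : ℕ) (ν : ℤ) :
    ee N ν = Complex.exp (Complex.I * ((2 * (Real.pi * ν / N) : ℝ) : ℂ)) := by
  unfold ee
  congr 1
  push_cast
  ring

theorem t_SM_norm (N : ℕ) (ν : ℤ) (m : ℕ) :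
    ‖ee N ν ^ m - 1‖ = 2 * |Real.sin (m * (Real.pi * ν / N))| := by
  rw [t_SM_ee, ← Complex.exp_nat_mul]
  have h1 : (m : ℂ) * (Complex.I * ((2 * (Real.pi * ν / N) : ℝ) : ℂ)) =
      Complex.I * ((2 * (m * (Real.pi * ν / N)) : ℝ) : ℂ) := by
    push_cast
    ring
  rw [h1, Complex.norm_exp_I_mul_ofReal_sub_one, mul_div_cancel_left₀ _ (two_ne_zero' ℝ)]
  rw [Real.norm_eq_abs, abs_mul, abs_two]

theorem t_SM : S_SM := by
  intro N ν hN hν h2
  have hNp : (0 : ℝ) < N := by exact_mod_cast hN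
  have hνp : (0 : ℝ) < |(ν : ℝ)| := abs_pos.2 (by exact_mod_cast hν)
  have h2r : 2 * |(ν : ℝ)| ≤ N := by exact_mod_cast h2
  have hpi := Real.pi_pos
  set θ : ℝ := Real.pi * ν / N with hθ
  have hθa : |θ| = Real.pi * |(ν : ℝ)| / N := by
    rw [hθ, abs_div, abs_mul, abs_of_pos hpi, abs_of_pos hNp]
  have hlow : 2 * |(ν : ℝ)| / N ≤ |Real.sin θ| := by
    have h3 : |θ| ≤ Real.pi / 2 := by
      rw [hθa, div_le_iff₀ hNp]
      nlinarith
    have h4 := Real.mul_abs_le_abs_sin h3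
    rw [hθa] at h4
    refine le_trans (le_of_eq ?_) h4
    field_simp
  have hsin : 0 < |Real.sin θ| := lt_of_lt_of_le (by positivity) hlow
  have hq : ‖ee N ν - 1‖ = 2 * |Real.sin θ| := by
    have := t_SM_norm N ν 1
    rw [pow_one, Nat.cast_one, one_mul] at this
    exact this
  have hq1 : ee N ν ≠ 1 := by
    intro h
    rw [h, sub_self, norm_zero] at hq
    linarith
  have hSS : ∀ m : ℕ, SS N m ν = (ee N ν ^ m - 1) / (ee N ν - 1) := by
    intro m
    unfold SS
    rw [← geom_sum_eq hq1]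
    exact sum_congr rfl fun y _ => t_SM_pow N ν y
  have hn : ∀ m : ℕ, ‖SS N m ν‖ = |Real.sin (m * θ)| / |Real.sin θ| := by
    intro m
    rw [hSS, norm_div, t_SM_norm, hq, mul_div_mul_left _ _ (two_ne_zero' ℝ)]
  refine ⟨fun m => ?_, ?_⟩
  · rw [hn, div_le_div_iff₀ hsin (by positivity)]
    have h3 := Real.abs_sin_le_one (m * θ)
    rw [div_le_iff₀ hNp] at hlow
    nlinarith [abs_nonneg (Real.sin (m * θ))]
  · have hup : |Real.sin θ| ≤ Real.pi * |(ν : ℝ)| / N := by
      rw [← hθa]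
      exact Real.abs_sin_le_abs
    have hterm : ∀ m ∈ range N, (N : ℝ) / (Real.pi * |(ν : ℝ)|) *
        ((1 - (ee N ν ^ m).re) / 2) ≤ ‖SS N m ν‖ := by
      intro m _
      have hre : (ee N ν ^ m).re = Real.cos (2 * (m * θ)) := by
        rw [t_SM_ee, ← Complex.exp_nat_mul]
        have h1 : (m : ℂ) * (Complex.I * ((2 * (Real.pi * ν / N) : ℝ) : ℂ)) =
            ((2 * (m * θ) : ℝ) : ℂ) * Complex.I := by
          rw [hθ]
          push_cast
          ring
        rw [h1, Complex.exp_ofReal_mul_I_re]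
      rw [hn, hre, Real.cos_two_mul, le_div_iff₀ hsin]
      have h5 : (1 - (2 * Real.cos (m * θ) ^ 2 - 1)) / 2 = |Real.sin (m * θ)| ^ 2 := by
        rw [sq_abs]
        linarith [Real.sin_sq_add_cos_sq (m * θ)]
      rw [h5]
      have h6 : |Real.sin (m * θ)| ^ 2 ≤ |Real.sin (m * θ)| := by
        have := Real.abs_sin_le_one (m * θ)
        nlinarith [abs_nonneg (Real.sin (m * θ))]
      have h7 : (N : ℝ) / (Real.pi * |(ν : ℝ)|) * |Real.sin θ| ≤ 1 := by
        have h8 := mul_le_mul_of_nonneg_left hup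
          (show (0 : ℝ) ≤ (N : ℝ) / (Real.pi * |(ν : ℝ)|) by positivity)
        refine h8.trans (le_of_eq ?_)
        field_simp
      calc (N : ℝ) / (Real.pi * |(ν : ℝ)|) * |Real.sin (m * θ)| ^ 2 * |Real.sin θ|
          = ((N : ℝ) / (Real.pi * |(ν : ℝ)|) * |Real.sin θ|) * |Real.sin (m * θ)| ^ 2 := by ring
        _ ≤ 1 * |Real.sin (m * θ)| ^ 2 := mul_le_mul_of_nonneg_right h7 (by positivity)
        _ ≤ |Real.sin (m * θ)| := by rw [one_mul]; exact h6
    have hqN : ee N ν ^ N = 1 := by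
      rw [← t_SM_pow]
      unfold ee
      have h1 : 2 * (Real.pi : ℂ) * Complex.I * (((ν * (N : ℤ) : ℤ) : ℂ) / (N : ℂ)) =
          (ν : ℂ) * (2 * Real.pi * Complex.I) := by
        have : (N : ℂ) ≠ 0 := by exact_mod_cast hNp.ne'
        push_cast
        field_simp
      rw [h1]
      exact Complex.exp_int_mul_two_pi_mul_I ν
    have hsum : ∑ m ∈ range N, ee N ν ^ m = 0 := by
      rw [geom_sum_eq hq1, hqN, sub_self, zero_div]
    refine le_trans (le_of_eq ?_) (sum_le_sum hterm)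
    rw [← mul_sum, ← sum_div, sum_sub_distrib, ← Complex.re_sum, hsum]
    simp only [sum_const, card_range, nsmul_eq_mul, mul_one, Complex.zero_re, sub_zero]
    field_simp

end Pool.Agent.H484.AL
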